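import Pool.Agent.Lib.MP_6bc78b_nt.GP.Iface

/-! Project GP, module CHV: the change of variables `(u, δ) ↦ zp u δ`. -/

set_option autoImplicit false

open Complex Filter Topology MeasureTheory Set
open scoped ENNReal ComplexConjugate

namespace Pool.Agent.Lib.MP_6bc78b_nt.GP.H76

/-- `zp` as a function of `u + iδ`. -/
noncomputable def ph (w : ℂ) : ℂ := 2 * Real.pi * I * (Complex.exp (conj w) - 1)

/-- The box of the parameters. -/
def SS (T : ℝ) : Set ℂ :=
  {w : ℂ | w.re ∈ Icc (-(1 / 2) : ℝ) (1 / 2) ∧ w.im ∈ Icc (1 / T) (2 / T)}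

lemma zp_re_im (w : ℂ) : zp w.re w.im = ph w := by
  unfold zp ph
  congr 3
  apply Complex.ext <;> simp

lemma ph_re (w : ℂ) : (ph w).re = 2 * Real.pi * (Real.exp w.re * Real.sin w.im) := by
  unfold ph
  simp [Complex.exp_re, Complex.exp_im]

lemma ph_im (w : ℂ) : (ph w).im = 2 * Real.pi * (Real.exp w.re * Real.cos w.im - 1) := by
  unfold ph
  simp [Complex.exp_re, Complex.exp_im]

/-- the real derivative of `ph`. -/
noncomputable def dph (w : ℂ) : ℂ →L[ℝ] ℂ :=
  ((ContinuousLinearMap.mul ℝ ℂ (2 * Real.pi * I * Complex.exp (conj w))).comp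
    (Complex.conjCLE : ℂ →L[ℝ] ℂ))

lemma hasFDerivAt_ph (w : ℂ) : HasFDerivAt ph (dph w) w := by
  have h1 : HasDerivAt (fun w : ℂ => 2 * Real.pi * I * (Complex.exp w - 1))
      (2 * Real.pi * I * Complex.exp (conj w)) (conj w) := by
    simpa using ((Complex.hasDerivAt_exp (conj w)).sub_const 1).const_mul (2 * Real.pi * I)
  have h2 := h1.hasFDerivAt.restrictScalars ℝ
  have h3 : HasFDerivAt (fun w : ℂ => conj w) (Complex.conjCLE : ℂ →L[ℝ] ℂ) w :=
    Complex.conjCLE.hasFDerivAt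
  have h4 := h2.comp w h3
  refine h4.congr_fderiv ?_
  ext x
  simp [dph, mul_comm]

lemma det_dph (w : ℂ) : |(dph w).det| = 4 * Real.pi ^ 2 * Real.exp (2 * w.re) := by
  have h1 : (dph w).det = LinearMap.det (LinearMap.mul ℝ ℂ (2 * Real.pi * I * Complex.exp (conj w)))
      * LinearMap.det (Complex.conjAe.toLinearMap) := by
    rw [← LinearMap.det_comp]
    rfl
  rw [h1, Complex.det_conjAe]
  have h2 : LinearMap.det (LinearMap.mul ℝ ℂ (2 * Real.pi * I * Complex.exp (conj w))) =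
      Complex.normSq (2 * Real.pi * I * Complex.exp (conj w)) := by
    rw [← Algebra.norm_complex_apply]
    rfl
  rw [h2, mul_neg_one, abs_neg, abs_of_nonneg (Complex.normSq_nonneg _)]
  rw [Complex.normSq_eq_norm_sq]
  rw [norm_mul, Complex.norm_exp]
  simp only [norm_mul, Complex.norm_I, Complex.norm_ofNat, Complex.norm_real, Real.norm_eq_abs,
    abs_of_pos Real.pi_pos, Complex.conj_re, mul_one]
  rw [mul_pow, mul_pow, two_mul, Real.exp_add]
  ring

lemma injOn_ph {T : ℝ} (hT : 10 ≤ T) : InjOn ph (SS T) := by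
  intro x hx y hy hxy
  have hpi := Real.pi_pos
  have e1 : Real.exp x.re * Real.sin x.im = Real.exp y.re * Real.sin y.im := by
    have h := congrArg Complex.re hxy
    rw [ph_re, ph_re] at h
    exact mul_left_cancel₀ (by positivity) h
  have e2 : Real.exp x.re * Real.cos x.im = Real.exp y.re * Real.cos y.im := by
    have h := congrArg Complex.im hxy
    rw [ph_im, ph_im] at h
    have := mul_left_cancel₀ (by positivity) h
    linarith
  have e3 : Real.exp x.re ^ 2 = Real.exp y.re ^ 2 := by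
    have hx2 := Real.sin_sq_add_cos_sq x.im
    have hy2 := Real.sin_sq_add_cos_sq y.im
    calc Real.exp x.re ^ 2 = (Real.exp x.re * Real.sin x.im) ^ 2
          + (Real.exp x.re * Real.cos x.im) ^ 2 := by
          rw [mul_pow, mul_pow, ← mul_add, hx2, mul_one]
      _ = (Real.exp y.re * Real.sin y.im) ^ 2 + (Real.exp y.re * Real.cos y.im) ^ 2 := by
          rw [e1, e2]
      _ = Real.exp y.re ^ 2 := by rw [mul_pow, mul_pow, ← mul_add, hy2, mul_one]
  have e4 : Real.exp x.re = Real.exp y.re := by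
    have := (sq_eq_sq₀ (Real.exp_pos _).le (Real.exp_pos _).le).1 e3
    exact this
  have e5 : x.re = y.re := Real.exp_injective e4
  have e6 : Real.sin x.im = Real.sin y.im := by
    rw [e4] at e1
    exact mul_left_cancel₀ (Real.exp_pos _).ne' e1
  have hb : (2 : ℝ) / T ≤ 1 / 5 := by
    rw [div_le_div_iff₀ (by linarith) (by norm_num)]
    linarith
  have h0 : (0 : ℝ) < 1 / T := by positivity
  have hpi3 : (3 : ℝ) < Real.pi := Real.pi_gt_three
  have e7 : x.im = y.im := by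
    apply Real.injOn_sin _ _ e6
    · exact ⟨by linarith [hx.2.1], by linarith [hx.2.2]⟩
    · exact ⟨by linarith [hy.2.1], by linarith [hy.2.2]⟩
  exact Complex.ext e5 e7

lemma image_subset {T : ℝ} (hT : 10 ≤ T) :
    ph '' (SS T) ⊆ {z : ℂ | 2 / T ≤ z.re ∧ z.re ≤ 26 / T ∧ |z.im| ≤ 7} := by
  rintro _ ⟨w, hw, rfl⟩
  have hTp : 0 < T := by linarith
  have hpi3 : (3 : ℝ) < Real.pi := Real.pi_gt_three
  have hpi4 : Real.pi < 3.15 := Real.pi_lt_d2
  have h0 : (0 : ℝ) < 1 / T := by positivity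
  have hb : (2 : ℝ) / T ≤ 1 / 5 := by
    rw [div_le_div_iff₀ (by linarith) (by norm_num)]
    linarith
  obtain ⟨⟨hu1, hu2⟩, hd1, hd2⟩ := hw
  have hd0 : 0 < w.im := by linarith
  have hd5 : w.im ≤ 1 / 5 := by linarith
  have hexp1 : (1 : ℝ) / 2 ≤ Real.exp w.re := by
    have := Real.add_one_le_exp w.re
    linarith
  have hexp2 : Real.exp w.re ≤ 2 := by
    have h1 : Real.exp w.re ≤ Real.exp (1 / 2) := Real.exp_le_exp.2 hu2
    have h2 : Real.exp (1 / 2) ≤ 2 := by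
      have h3 : Real.exp (1 / 2) ^ 2 ≤ 2 ^ 2 := by
        rw [← Real.exp_nat_mul]
        have := Real.exp_one_lt_d9
        norm_num
        linarith
      exact abs_le_of_sq_le_sq' h3 (by norm_num) |>.2
    linarith
  have hsin1 : w.im - w.im ^ 3 / 6 < Real.sin w.im := Real.sin_gt_sub_cube hd0
  have hsin2 : Real.sin w.im ≤ w.im := Real.sin_le hd0.le
  have hsin3 : 0.9 * w.im ≤ Real.sin w.im := by
    have hq : w.im ^ 2 ≤ (1 / 5) ^ 2 := pow_le_pow_left₀ hd0.le hd5 2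
    have hc : w.im ^ 3 ≤ w.im * (1 / 5) ^ 2 := by
      rw [pow_succ, mul_comm]
      exact mul_le_mul_of_nonneg_left hq hd0.le
    linarith
  refine ⟨?_, ?_, ?_⟩
  · rw [ph_re]
    have h1 : (2 : ℝ) / T = 2 * (1 / T) := by ring
    rw [h1]
    have h2 : (1 / 2 : ℝ) * (0.9 * (1 / T)) ≤ Real.exp w.re * Real.sin w.im :=
      mul_le_mul hexp1 (by linarith) (by positivity) (Real.exp_pos _).le
    have h3 : (6 : ℝ) * ((1 / 2 : ℝ) * (0.9 * (1 / T))) ≤
        2 * Real.pi * (Real.exp w.re * Real.sin w.im) :=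
      mul_le_mul (by linarith) h2 (by positivity) (by positivity)
    linarith
  · rw [ph_re]
    have h1 : (26 : ℝ) / T = 13 * (2 / T) := by ring
    rw [h1]
    have h2 : Real.exp w.re * Real.sin w.im ≤ 2 * (2 / T) :=
      mul_le_mul hexp2 (by linarith) (by nlinarith) (by norm_num)
    have h3 : 2 * Real.pi * (Real.exp w.re * Real.sin w.im) ≤ 6.3 * (2 * (2 / T)) :=
      mul_le_mul (by linarith) h2 (mul_nonneg (Real.exp_pos _).le (by linarith)) (by norm_num)
    have h4 : (0 : ℝ) < 2 / T := by positivity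
    linarith
  · rw [ph_im, abs_le]
    have hc1 : Real.cos w.im ≤ 1 := Real.cos_le_one _
    have hc0 : 0 ≤ Real.cos w.im := Real.cos_nonneg_of_neg_pi_div_two_le_of_le (by linarith) (by linarith)
    have hp1 : 0 ≤ Real.exp w.re * Real.cos w.im := by positivity
    have hp2 : Real.exp w.re * Real.cos w.im ≤ 2 := by nlinarith
    constructor <;> nlinarith

lemma weight {T H : ℝ} (hT : 10 ≤ T) (hH : 1 ≤ H) (hHT : H ≤ T) {w : ℂ} (hw : w ∈ SS T) :
    Real.exp (-(H ^ 2 * w.re ^ 2) + w.re) ≤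
      4 * Real.pi ^ 2 * Real.exp (2 * w.re) *
        Real.exp (-(1 / (32 * Real.pi ^ 2) * H ^ 2 * (ph w).im ^ 2)) := by
  have hTp : 0 < T := by linarith
  have hpi3 : (3 : ℝ) < Real.pi := Real.pi_gt_three
  have h0 : (0 : ℝ) < 1 / T := by positivity
  have hb : (2 : ℝ) / T ≤ 1 / 5 := by
    rw [div_le_div_iff₀ (by linarith) (by norm_num)]
    linarith
  obtain ⟨⟨hu1, hu2⟩, hd1, hd2⟩ := hw
  have hd0 : 0 < w.im := by linarith
  have hd5 : w.im ≤ 1 / 5 := by linarith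
  have hexp2 : Real.exp w.re ≤ 2 := by
    have h1 : Real.exp w.re ≤ Real.exp (1 / 2) := Real.exp_le_exp.2 hu2
    have h2 : Real.exp (1 / 2) ≤ 2 := by
      have h3 : Real.exp (1 / 2) ^ 2 ≤ 2 ^ 2 := by
        rw [← Real.exp_nat_mul]
        have := Real.exp_one_lt_d9
        norm_num
        linarith
      exact abs_le_of_sq_le_sq' h3 (by norm_num) |>.2
    linarith
  have hE : |Real.exp w.re - 1| ≤ 2 * |w.re| :=
    Real.abs_exp_sub_one_le (abs_le.2 ⟨by linarith, by linarith⟩)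
  have hcos : 1 - w.im ^ 2 / 2 ≤ Real.cos w.im := Real.one_sub_sq_div_two_le_cos
  have hX : |Real.exp w.re * Real.cos w.im - 1| ≤ 2 * |w.re| + w.im ^ 2 := by
    have e : Real.exp w.re * Real.cos w.im - 1 =
        (Real.exp w.re - 1) - Real.exp w.re * (1 - Real.cos w.im) := by ring
    rw [e]
    refine (abs_sub _ _).trans ?_
    have h1 : |Real.exp w.re * (1 - Real.cos w.im)| ≤ w.im ^ 2 := by
      rw [abs_of_nonneg (mul_nonneg (Real.exp_pos _).le (by linarith [Real.cos_le_one w.im]))]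
      calc Real.exp w.re * (1 - Real.cos w.im) ≤ 2 * (w.im ^ 2 / 2) :=
            mul_le_mul hexp2 (by linarith) (by linarith [Real.cos_le_one w.im]) (by norm_num)
        _ = w.im ^ 2 := by ring
    linarith
  have hX2 : (Real.exp w.re * Real.cos w.im - 1) ^ 2 ≤ 8 * w.re ^ 2 + 2 * w.im ^ 4 := by
    have h1 : (Real.exp w.re * Real.cos w.im - 1) ^ 2 ≤ (2 * |w.re| + w.im ^ 2) ^ 2 :=
      sq_le_sq' (by linarith [(abs_le.1 hX).1]) (abs_le.1 hX).2
    have h2 : |w.re| ^ 2 = w.re ^ 2 := sq_abs _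
    nlinarith [sq_nonneg (2 * |w.re| - w.im ^ 2)]
  have him4 : w.im ^ 4 ≤ (2 / T) ^ 4 := pow_le_pow_left₀ hd0.le hd2 4
  have hHd : H ^ 2 * w.im ^ 4 ≤ 1 / 5 := by
    have h1 : H ^ 2 ≤ T ^ 2 := pow_le_pow_left₀ (by linarith) hHT 2
    have h2 : H ^ 2 * w.im ^ 4 ≤ T ^ 2 * (2 / T) ^ 4 :=
      mul_le_mul h1 him4 (by positivity) (by positivity)
    have h3 : T ^ 2 * (2 / T) ^ 4 = 4 * (2 / T) ^ 2 := by
      field_simp
      norm_num
    have h4 : (2 / T) ^ 2 ≤ (1 / 5) ^ 2 := pow_le_pow_left₀ (by positivity) hb 2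
    have h5 : (4 : ℝ) * (1 / 5) ^ 2 ≤ 1 / 5 := by norm_num
    linarith
  have hmain : 1 / (32 * Real.pi ^ 2) * H ^ 2 * (ph w).im ^ 2 ≤ H ^ 2 * w.re ^ 2 + 1 / 20 := by
    rw [ph_im]
    have e : 1 / (32 * Real.pi ^ 2) * H ^ 2 *
        (2 * Real.pi * (Real.exp w.re * Real.cos w.im - 1)) ^ 2 =
        H ^ 2 / 8 * (Real.exp w.re * Real.cos w.im - 1) ^ 2 := by
      field_simp
      ring
    rw [e]
    have h1 : H ^ 2 / 8 * (Real.exp w.re * Real.cos w.im - 1) ^ 2 ≤
        H ^ 2 / 8 * (8 * w.re ^ 2 + 2 * w.im ^ 4) :=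
      mul_le_mul_of_nonneg_left hX2 (by positivity)
    nlinarith
  have hc : Real.exp (1 : ℝ) ≤ 4 * Real.pi ^ 2 := by
    have := Real.exp_one_lt_d9
    nlinarith
  calc Real.exp (-(H ^ 2 * w.re ^ 2) + w.re) ≤
      Real.exp (1 + 2 * w.re + -(1 / (32 * Real.pi ^ 2) * H ^ 2 * (ph w).im ^ 2)) := by
        apply Real.exp_le_exp.2
        linarith
    _ = Real.exp 1 * Real.exp (2 * w.re) *
        Real.exp (-(1 / (32 * Real.pi ^ 2) * H ^ 2 * (ph w).im ^ 2)) := by
        rw [Real.exp_add, Real.exp_add]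
    _ ≤ _ := by gcongr

lemma measurableSet_SS (T : ℝ) : MeasurableSet (SS T) :=
  (Complex.measurable_re measurableSet_Icc).inter (Complex.measurable_im measurableSet_Icc)

lemma measurable_ph : Measurable ph := by
  unfold ph
  fun_prop

/-- iterated integral = integral over the box in `ℂ`. -/
lemma iter_eq (F : ℂ → ℝ≥0∞) (hF : Measurable F) (a b c d : ℝ) :
    ∫⁻ y in Icc c d, ∫⁻ x in Icc a b, F (⟨x, y⟩ : ℂ) =
      ∫⁻ w in {w : ℂ | w.re ∈ Icc a b ∧ w.im ∈ Icc c d}, F w := by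
  have hmp := Complex.volume_preserving_equiv_real_prod.symm
  have h1 := hmp.setLIntegral_comp_preimage_emb
    (Complex.measurableEquivRealProd.symm.measurableEmbedding) F
    {w : ℂ | w.re ∈ Icc a b ∧ w.im ∈ Icc c d}
  rw [← h1]
  have h2 : (Complex.measurableEquivRealProd.symm ⁻¹'
      {w : ℂ | w.re ∈ Icc a b ∧ w.im ∈ Icc c d}) = Icc a b ×ˢ Icc c d := by
    ext p
    rw [mem_prod]
    rfl
  rw [h2, Measure.volume_eq_prod, ← Measure.prod_restrict, lintegral_prod_symm']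
  · rfl
  · exact hF.comp Complex.measurableEquivRealProd.symm.measurable

/-- Module CHV. -/
theorem chv : CHVStatement := by
  refine ⟨2, 26, 7, 1 / (32 * Real.pi ^ 2), 1, by norm_num, by norm_num, by norm_num,
    by positivity, by norm_num, ?_⟩
  intro g hg T H hT hH hHT
  set κ : ℝ := 1 / (32 * Real.pi ^ 2) with hκ
  have hFm : Measurable (fun w : ℂ => g (ph w) *
      ENNReal.ofReal (Real.exp (-(H ^ 2 * w.re ^ 2) + w.re))) := by
    refine (hg.comp measurable_ph).mul ?_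
    fun_prop
  have e1 : ∫⁻ δ in Icc (1 / T) (2 / T), ∫⁻ u in Icc (-(1 / 2) : ℝ) (1 / 2),
      g (zp u δ) * ENNReal.ofReal (Real.exp (-(H ^ 2 * u ^ 2) + u)) =
      ∫⁻ w in SS T, g (ph w) * ENNReal.ofReal (Real.exp (-(H ^ 2 * w.re ^ 2) + w.re)) := by
    have h := iter_eq (fun w : ℂ => g (ph w) *
      ENNReal.ofReal (Real.exp (-(H ^ 2 * w.re ^ 2) + w.re))) hFm (-(1 / 2)) (1 / 2) (1 / T) (2 / T)
    rw [show (∫⁻ w in SS T, g (ph w) * ENNReal.ofReal (Real.exp (-(H ^ 2 * w.re ^ 2) + w.re))) =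
      _ from h.symm]
    refine lintegral_congr fun δ => lintegral_congr fun u => ?_
    rw [← zp_re_im]
  rw [e1]
  have e2 : ∫⁻ z in ph '' (SS T), g z * ENNReal.ofReal (Real.exp (-(κ * H ^ 2 * z.im ^ 2))) =
      ∫⁻ w in SS T, ENNReal.ofReal |(dph w).det| *
        (g (ph w) * ENNReal.ofReal (Real.exp (-(κ * H ^ 2 * (ph w).im ^ 2)))) :=
    lintegral_image_eq_lintegral_abs_det_fderiv_mul volume (measurableSet_SS T)
      (fun w _ => (hasFDerivAt_ph w).hasFDerivWithinAt) (injOn_ph hT) _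
  calc ∫⁻ w in SS T, g (ph w) * ENNReal.ofReal (Real.exp (-(H ^ 2 * w.re ^ 2) + w.re))
      ≤ ∫⁻ w in SS T, ENNReal.ofReal |(dph w).det| *
        (g (ph w) * ENNReal.ofReal (Real.exp (-(κ * H ^ 2 * (ph w).im ^ 2)))) := by
        refine setLIntegral_mono' (measurableSet_SS T) fun w hw => ?_
        rw [det_dph, mul_left_comm, ← ENNReal.ofReal_mul (by positivity)]
        gcongr
        exact weight hT hH hHT hw
    _ = ∫⁻ z in ph '' (SS T), g z * ENNReal.ofReal (Real.exp (-(κ * H ^ 2 * z.im ^ 2))) := e2.symm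
    _ ≤ ∫⁻ z in {z : ℂ | 2 / T ≤ z.re ∧ z.re ≤ 26 / T ∧ |z.im| ≤ 7},
        g z * ENNReal.ofReal (Real.exp (-(κ * H ^ 2 * z.im ^ 2))) :=
        lintegral_mono_set (image_subset hT)
    _ = _ := by rw [ENNReal.ofReal_one, one_mul]

end Pool.Agent.Lib.MP_6bc78b_nt.GP.H76
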